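import Pool.Agent.Helper98.Flip.Blocks
import Pool.Agent.Helper20.Flip.Sh.Par

/-!
# The two forced flips at the start of the endgame
-/

set_option autoImplicit false

namespace Pool.Agent.Helper20.Flip

/-- the only long entry of a list of lists -/
lemma unique_long {P₀ Q₀ P Q : List (List Edge)} {B₀ B : List Edge}
    (hP₀ : ∀ b ∈ P₀, b.length = 1) (hQ₀ : ∀ b ∈ Q₀, b.length = 1)
    (h : P₀ ++ [B₀] ++ Q₀ = P ++ [B] ++ Q) (hB : 2 ≤ B.length) :
    P₀ = P ∧ B₀ = B ∧ Q₀ = Q := by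
  rw [List.append_assoc, List.append_assoc, List.singleton_append, List.singleton_append] at h
  rcases List.append_eq_append_iff.1 h with ⟨a, h1, h2⟩ | ⟨a, h1, h2⟩
  · -- P = P₀ ++ a, B₀ :: Q₀ = a ++ B :: Q
    cases a with
    | nil =>
      simp only [List.append_nil, List.nil_append, List.cons.injEq] at h1 h2
      exact ⟨h1.symm, h2.1, h2.2⟩
    | cons x a =>
      rw [List.cons_append, List.cons.injEq] at h2
      have hm : B ∈ Q₀ := by rw [h2.2]; simp
      have := hQ₀ B hm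
      omega
  · -- P₀ = P ++ a, B :: Q = a ++ B₀ :: Q₀
    cases a with
    | nil =>
      simp only [List.append_nil, List.nil_append, List.cons.injEq] at h1 h2
      exact ⟨h1, h2.1.symm, h2.2.symm⟩
    | cons x a =>
      rw [List.cons_append, List.cons.injEq] at h2
      have hm : B ∈ P₀ := by rw [h1, h2.1]; simp
      have := hP₀ B hm
      omega

lemma flatten_singletons (X : List Edge) : (X.map fun e => [e]).flatten = X := by
  induction X with
  | nil => rfl
  | cons x X ih => simp [ih]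

/-- A chain with exactly one nontrivial block has exactly one flip. -/
theorem cstep_single {X B Y : List Edge} (hs : Small (X ++ B ++ Y)) (hX : Sorted X)
    (hY : Sorted Y) (hB : GoodBlock B) (h2 : 2 ≤ B.length) (hXB : ∀ e ∈ X, e.2 < dir B)
    (hBY : ∀ e ∈ Y, dir B < e.2) :
    CStep (X ++ B ++ Y) (X ++ flipBlock B ++ Y) ∧
      ∀ c, CStep (X ++ B ++ Y) c → c = X ++ flipBlock B ++ Y := by
  have hsX : ∀ e ∈ X, dir [e] = e.2 := fun e he =>
    dir_singleton fun e' he' => by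
      rw [List.mem_singleton] at he'
      exact hs e' (by rw [he']; simp [he])
  have hsY : ∀ e ∈ Y, dir [e] = e.2 := fun e he =>
    dir_singleton fun e' he' => by
      rw [List.mem_singleton] at he'
      exact hs e' (by rw [he']; simp [he])
  set bs : List (List Edge) := (X.map fun e => [e]) ++ [B] ++ (Y.map fun e => [e]) with hbs
  have hfl : bs.flatten = X ++ B ++ Y := by
    rw [hbs, List.flatten_append, List.flatten_append, flatten_singletons, flatten_singletons]
    simp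
  have hgs : ∀ e : Edge, GoodBlock [e] := by
    intro e
    refine ⟨by simp, ?_⟩
    intro P Q hPQ hP hQ
    exfalso
    have h3 := congrArg List.length hPQ
    have h4 := List.length_pos_iff.2 hP
    have h5 := List.length_pos_iff.2 hQ
    simp only [List.length_singleton, List.length_append] at h3
    omega
  have hg : ∀ b ∈ bs, GoodBlock b := by
    intro b hb
    rw [hbs] at hb
    simp only [List.mem_append, List.mem_map, List.mem_singleton] at hb
    rcases hb with (⟨e, -, rfl⟩ | rfl) | ⟨e, -, rfl⟩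
    · exact hgs e
    · exact hB
    · exact hgs e
  have hXd : (X.map fun e => [e]).map dir = X.map fun e => e.2 := by
    rw [List.map_map]
    exact List.map_congr_left fun e he => hsX e he
  have hYd : (Y.map fun e => [e]).map dir = Y.map fun e => e.2 := by
    rw [List.map_map]
    exact List.map_congr_left fun e he => hsY e he
  have hd : (bs.map dir).Pairwise (· < ·) := by
    rw [hbs, List.map_append, List.map_append, hXd, hYd, List.pairwise_append,
      List.pairwise_append]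
    refine ⟨⟨List.pairwise_map.2 hX, by simp, ?_⟩, List.pairwise_map.2 hY, ?_⟩
    · intro a ha b hb
      simp only [List.mem_map] at ha
      simp only [List.map_cons, List.map_nil, List.mem_singleton] at hb
      obtain ⟨e, he, rfl⟩ := ha
      rw [hb]
      exact hXB e he
    · intro a ha b hb
      simp only [List.mem_map] at hb
      obtain ⟨e, he, rfl⟩ := hb
      rw [List.mem_append] at ha
      rcases ha with ha | ha
      · simp only [List.mem_map] at ha
        obtain ⟨e', he', rfl⟩ := ha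
        exact (hXB e' he').trans (hBY e he)
      · simp only [List.map_cons, List.map_nil, List.mem_singleton] at ha
        rw [ha]
        exact hBY e he
  constructor
  · refine ⟨X, B, Y, rfl, ?_, rfl⟩
    refine (hullBlock_iff (bs := bs) (by rw [hfl]; exact hs) hg hd hfl).2 ⟨h2, ?_⟩
    exact ⟨_, _, hbs, (flatten_singletons X).symm, (flatten_singletons Y).symm⟩
  · rintro c ⟨X', B', Y', h, hh, rfl⟩
    obtain ⟨h3, P, Q, h4, rfl, rfl⟩ :=
      (hullBlock_iff (bs := bs) (by rw [hfl]; exact hs) hg hd (hfl.trans h)).1 hh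
    have hone : ∀ Z : List Edge, ∀ b ∈ (Z.map fun e => [e]), b.length = 1 := by
      intro Z b hb
      obtain ⟨e, -, rfl⟩ := List.mem_map.1 hb
      rfl
    obtain ⟨rfl, rfl, rfl⟩ := unique_long (hone X) (hone Y) (hbs.symm.trans h4) h3
    rw [flatten_singletons, flatten_singletons]

/-- A block whose edges go first above and then below the lid is good. -/
lemma goodBlock_of_split {U W : List Edge} (hs : Small (U ++ W)) (hne : U ++ W ≠ [])
    (hU : ∀ e ∈ U, dir (U ++ W) < e.2 ∧ e.2 < dir (U ++ W) + 3)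
    (hW : ∀ e ∈ W, e.2 < dir (U ++ W) ∧ dir (U ++ W) < e.2 + 3) : GoodBlock (U ++ W) := by
  refine ⟨hne, ?_⟩
  intro P Q hPQ hP hQ
  have h0 := ht_dir hs
  rcases List.append_eq_append_iff.1 hPQ with ⟨a, h1, h2⟩ | ⟨a, h1, h2⟩
  · -- P = U ++ a, W = a ++ Q
    have h3 : ht (dir (U ++ W)) P + ht (dir (U ++ W)) Q = 0 := by
      rw [← ht_append, ← hPQ]
      exact h0
    have h4 : ht (dir (U ++ W)) Q < 0 := by
      refine ht_neg ?_ hQ
      intro e he
      have he' : e ∈ W := by rw [h2]; simp [he]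
      exact ⟨(hs e (by simp [he'])).1, (hW e he').1, (hW e he').2⟩
    linarith
  · -- U = P ++ a
    refine ht_pos ?_ hP
    intro e he
    have he' : e ∈ U := by rw [h1]; simp [he]
    exact ⟨(hs e (by simp [he'])).1, (hU e he').1, (hU e he').2⟩

namespace Sh

lemma ech_ok_of_abs {N : ℕ} {τ e lz lp la lb lr lu : ℝ} {rest : List Edge}
    (hE : EState N τ e lz lp la lb lr lu rest) {z p a b r u : ℝ} (hz : |z| ≤ 2) (hp : |p| ≤ 2)
    (ha : |a| ≤ 2) (hb : |b| ≤ 2) (hr : |r| ≤ 2) (hu : |u| ≤ 2) :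
    Ok N (ech τ lz lp la lb lr lu rest z p a b r u) := by
  have hτ := hE.hτ
  have key : ∀ v : ℝ, |v| ≤ 2 → |τ * v| ≤ 1 / 100 := by
    intro v hv
    rw [abs_mul, abs_of_pos hτ]
    have := hE.hτ'
    nlinarith [abs_nonneg v]
  have he := hE.he
  have he' : e ≤ 1 / 4 := he.trans (by norm_num)
  have h1 := hE.hlz
  have h2 := hE.hlp
  have h3 := hE.hla
  have h4 := hE.hlb
  have h5 := hE.hlr
  have h6 := hE.hlu
  refine ⟨by simp [ech, ← hE.hN], by have := hE.hN; omega, ?_⟩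
  intro x hx
  simp only [ech, List.mem_cons] at hx
  rcases hx with rfl | rfl | rfl | rfl | rfl | rfl | hx
  · exact ⟨by simp only; linarith, by simp only; linarith, key _ hz⟩
  · exact ⟨by simp only; linarith, by simp only; linarith, key _ hp⟩
  · exact ⟨by simp only; linarith, by simp only; linarith, key _ ha⟩
  · exact ⟨by simp only; linarith, by simp only; linarith, key _ hb⟩
  · exact ⟨by simp only; linarith, by simp only; linarith, key _ hr⟩
  · exact ⟨by simp only; linarith, by simp only; linarith, key _ hu⟩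
  · obtain ⟨h7, h8, h9, h10⟩ := hE.hrest' x hx
    refine ⟨h7, h8, ?_⟩
    rw [abs_le]
    constructor
    · nlinarith
    · exact h10

/-- the direction of a chain with the small angles `τ * v` -/
lemma dir_scaled {c : List Edge} (hc : c ≠ []) {τ e s E : ℝ} (hτ : 0 < τ) (hτ' : τ ≤ 1 / 200)
    (hτe : τ ^ 2 ≤ e) (hl : ∀ x ∈ c, 0 < x.1) (hv : ∀ x ∈ c, |x.2| ≤ 1)
    (hE : |(c.map fun x => x.1 * (x.2 - s)).sum| ≤ E * (c.map fun x => x.1).sum) :
    |dir (c.map fun x => (x.1, τ * x.2)) / τ - s| ≤ 8 * e + E := by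
  set B : List Edge := c.map fun x => (x.1, τ * x.2) with hB
  have hBne : B ≠ [] := by
    rw [hB]
    simpa using hc
  have hang : ∀ x ∈ B, |x.2| ≤ τ := by
    intro x hx
    obtain ⟨y, hy, rfl⟩ := List.mem_map.1 hx
    simp only
    rw [abs_mul, abs_of_pos hτ]
    have := hv y hy
    nlinarith
  have hBs : Small B := by
    intro x hx
    refine ⟨?_, (hang x hx).trans (by linarith)⟩
    obtain ⟨y, hy, rfl⟩ := List.mem_map.1 hx
    exact hl y hy
  have h1 := dir_approx hBs hBne (t := τ) (by linarith) hang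
  have h2 : (B.map fun x => x.1).sum = (c.map fun x => x.1).sum := by
    rw [hB, List.map_map]
    rfl
  have h3 : (B.map fun x => x.1 * x.2).sum
      = τ * ((c.map fun x => x.1 * (x.2 - s)).sum + s * (c.map fun x => x.1).sum) := by
    rw [hB, List.map_map]
    clear_value B
    clear hE h1 h2 hBs hang hBne hB hl hv hc
    induction c with
    | nil => simp
    | cons x c ih =>
      simp only [List.map_cons, List.sum_cons, Function.comp_apply] at ih ⊢
      rw [ih]
      ring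
  have hL : 0 < (c.map fun x => x.1).sum := by
    obtain ⟨x, hx⟩ := List.exists_mem_of_ne_nil c hc
    exact list_sum_pos (fun x : Edge => x.1) c (fun y hy => (hl y hy).le) ⟨x, hx, hl x hx⟩
  rw [h2, h3] at h1
  set L := (c.map fun x => x.1).sum
  set S := (c.map fun x => x.1 * (x.2 - s)).sum
  have h4 : τ * (S + s * L) / L = τ * (S / L + s) := by
    field_simp
  rw [h4] at h1
  have h5 : |S / L| ≤ E := by
    rw [abs_div, abs_of_pos hL, div_le_iff₀ hL]
    exact hE
  have h6 : |dir B / τ - (S / L + s)| ≤ 8 * e := by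
    have h7 : dir B / τ - (S / L + s) = (dir B - τ * (S / L + s)) / τ := by
      field_simp
    rw [h7, abs_div, abs_of_pos hτ, div_le_iff₀ hτ]
    refine h1.trans ?_
    nlinarith
  have h8 : dir B / τ - s = (dir B / τ - (S / L + s)) + S / L := by ring
  rw [h8]
  exact (abs_add_le _ _).trans (add_le_add h6 h5)

/-- the flip of a block with the velocities `v` -/
lemma flipBlock_scaled {c : List Edge} {τ : ℝ} (hτ : 0 < τ) :
    flipBlock (c.map fun x => (x.1, τ * x.2)) =
      c.map fun x => (x.1, τ * (2 * (dir (c.map fun x => (x.1, τ * x.2)) / τ) - x.2)) := by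
  rw [flipBlock, List.map_map]
  refine List.map_congr_left fun x _ => ?_
  simp only [Function.comp_apply, refl, Prod.mk.injEq, true_and]
  field_simp

/-- direction of the block `[A, B, r, U]` -/
lemma est_avg1 {τ e la lb lr lu δ q a b r : ℝ} (hτ : 0 < τ) (hτ' : τ ≤ 1 / 200)
    (hτe : τ ^ 2 ≤ e) (he : e ≤ 1 / 1000000) (hδ : 0 ≤ δ) (hδ' : δ ≤ 1 / 1000000)
    (hla : 1 ≤ la ∧ la ≤ 1 + e) (hlb : 1 / 4 ≤ lb ∧ lb ≤ 1 / 4 * (1 + e))
    (hlr : 0 < lr ∧ lr ≤ e) (hlu : 1 ≤ lu ∧ lu ≤ 1 + e) (hq : |q| ≤ 4 * δ)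
    (ha : |a - 27 / 128| ≤ e) (hb : |b - (9 / 16 - 45 * δ)| ≤ e) (hr : |r - 315 / 512| ≤ e) :
    |dir ([(la, a), (lb, b), (lr, r), (lu, q)].map fun x => (x.1, τ * x.2)) / τ -
      (5 / 32 - 5 * δ + 4 / 9 * q)| ≤ 8 * e + 3 * e := by
  have he0 : 0 ≤ e := (sq_nonneg τ).trans hτe
  have ca : 1 / 5 ≤ a ∧ a ≤ 1 / 4 := by
    obtain ⟨h1, h2⟩ := abs_le.1 ha
    constructor <;> linarith only [h1, h2, he]
  have cb : 1 / 4 ≤ b ∧ b ≤ 1 := by
    obtain ⟨h1, h2⟩ := abs_le.1 hb
    constructor <;> linarith only [h1, h2, he, hδ, hδ']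
  have cr : 1 / 4 ≤ r ∧ r ≤ 3 / 4 := by
    obtain ⟨h1, h2⟩ := abs_le.1 hr
    constructor <;> linarith only [h1, h2, he]
  have cq : -(1 / 100) ≤ q ∧ q ≤ 1 / 100 := by
    obtain ⟨h1, h2⟩ := abs_le.1 hq
    constructor <;> linarith only [h1, h2, hδ']
  obtain ⟨s₀, hs₀⟩ : ∃ s₀, s₀ = 5 / 32 - 5 * δ + 4 / 9 * q := ⟨_, rfl⟩
  have cs : 1 / 10 ≤ s₀ ∧ s₀ ≤ 1 / 5 := by
    constructor <;> linarith only [hs₀, hδ, hδ', cq.1, cq.2]
  rw [← hs₀]
  have hprod : ∀ x y : ℝ, 0 ≤ x → x ≤ e → |y| ≤ 1 → |x * y| ≤ e := by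
    intro x y hx hx' hy
    rw [abs_mul, abs_of_nonneg hx]
    calc x * |y| ≤ e * 1 := mul_le_mul hx' hy (abs_nonneg y) he0
      _ = e := mul_one e
  refine dir_scaled (by simp) hτ hτ' hτe ?_ ?_ ?_
  · intro x hx
    simp only [List.mem_cons, List.not_mem_nil, or_false] at hx
    rcases hx with rfl | rfl | rfl | rfl
    · exact lt_of_lt_of_le one_pos hla.1
    · exact lt_of_lt_of_le (by norm_num) hlb.1
    · exact hlr.1
    · exact lt_of_lt_of_le one_pos hlu.1
  · intro x hx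
    simp only [List.mem_cons, List.not_mem_nil, or_false] at hx
    rcases hx with rfl | rfl | rfl | rfl
    · simp only [abs_le]; constructor <;> linarith only [ca.1, ca.2]
    · simp only [abs_le]; constructor <;> linarith only [cb.1, cb.2]
    · simp only [abs_le]; constructor <;> linarith only [cr.1, cr.2]
    · simp only [abs_le]; constructor <;> linarith only [cq.1, cq.2]
  · simp only [List.map_cons, List.map_nil, List.sum_cons, List.sum_nil, add_zero]
    have k1 := abs_le.1 (hprod (la - 1) (a - s₀) (by linarith only [hla.1])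
      (by linarith only [hla.2])
      (by rw [abs_le]; constructor <;> linarith only [ca.1, ca.2, cs.1, cs.2]))
    have k2 := abs_le.1 (hprod (lb - 1 / 4) (b - s₀) (by linarith only [hlb.1])
      (by linarith only [hlb.2, he0])
      (by rw [abs_le]; constructor <;> linarith only [cb.1, cb.2, cs.1, cs.2]))
    have k3 := abs_le.1 (hprod lr (r - s₀) hlr.1.le hlr.2
      (by rw [abs_le]; constructor <;> linarith only [cr.1, cr.2, cs.1, cs.2]))
    have k4 := abs_le.1 (hprod (lu - 1) (q - s₀) (by linarith only [hlu.1])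
      (by linarith only [hlu.2])
      (by rw [abs_le]; constructor <;> linarith only [cq.1, cq.2, cs.1, cs.2]))
    have k5 : la * (a - s₀) + (lb * (b - s₀) + (lr * (r - s₀) + lu * (q - s₀))) =
        (la - 1) * (a - s₀) + (lb - 1 / 4) * (b - s₀) + lr * (r - s₀) +
          (lu - 1) * (q - s₀) + (a - 27 / 128) + (b - (9 / 16 - 45 * δ)) / 4 := by
      rw [hs₀]
      ring
    rw [k5]
    have k6 : 3 * e * (9 / 4) ≤ 3 * e * (la + (lb + (lr + lu))) :=
      mul_le_mul_of_nonneg_left (by linarith only [hla.1, hlb.1, hlr.1, hlu.1])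
        (by linarith only [he0])
    obtain ⟨h1, h2⟩ := abs_le.1 ha
    obtain ⟨h3, h4⟩ := abs_le.1 hb
    rw [abs_le]
    constructor
    · linarith only [k1.1, k2.1, k3.1, k4.1, k6, h1, h3, he0]
    · linarith only [k1.2, k2.2, k3.2, k4.2, k6, h2, h4, he0]

/-- direction of the block `[A, B, r]` -/
lemma est_avg2 {τ e la lb lr δ q a b r : ℝ} (hτ : 0 < τ) (hτ' : τ ≤ 1 / 200)
    (hτe : τ ^ 2 ≤ e) (he : e ≤ 1 / 1000000) (hδ : 0 ≤ δ) (hδ' : δ ≤ 1 / 1000000)
    (hla : 1 ≤ la ∧ la ≤ 1 + e) (hlb : 1 / 4 ≤ lb ∧ lb ≤ 1 / 4 * (1 + e))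
    (hlr : 0 < lr ∧ lr ≤ e) (hq : |q| ≤ 4 * δ)
    (ha : |a - (13 / 128 - 10 * δ + 8 / 9 * q)| ≤ 23 * e)
    (hb : |b - (-(1 / 4) + 35 * δ + 8 / 9 * q)| ≤ 23 * e)
    (hr : |r - (-(155 / 512) - 10 * δ + 8 / 9 * q)| ≤ 23 * e) :
    |dir ([(la, a), (lb, b), (lr, r)].map fun x => (x.1, τ * x.2)) / τ -
      (1 / 32 - δ + 8 / 9 * q)| ≤ 8 * e + 26 * e := by
  have he0 : 0 ≤ e := (sq_nonneg τ).trans hτe
  have cq : -(1 / 1000) ≤ q ∧ q ≤ 1 / 1000 := by
    obtain ⟨h1, h2⟩ := abs_le.1 hq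
    constructor <;> linarith only [h1, h2, hδ']
  have ca : 1 / 20 ≤ a ∧ a ≤ 1 / 5 := by
    obtain ⟨h1, h2⟩ := abs_le.1 ha
    constructor <;> linarith only [h1, h2, he, hδ, hδ', cq.1, cq.2]
  have cb : -(1 / 2) ≤ b ∧ b ≤ 0 := by
    obtain ⟨h1, h2⟩ := abs_le.1 hb
    constructor <;> linarith only [h1, h2, he, hδ, hδ', cq.1, cq.2]
  have cr : -(1 / 2) ≤ r ∧ r ≤ 0 := by
    obtain ⟨h1, h2⟩ := abs_le.1 hr
    constructor <;> linarith only [h1, h2, he, hδ, hδ', cq.1, cq.2]
  obtain ⟨s₀, hs₀⟩ : ∃ s₀, s₀ = 1 / 32 - δ + 8 / 9 * q := ⟨_, rfl⟩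
  have cs : 1 / 40 ≤ s₀ ∧ s₀ ≤ 1 / 20 := by
    constructor <;> linarith only [hs₀, hδ, hδ', cq.1, cq.2]
  rw [← hs₀]
  have hprod : ∀ x y : ℝ, 0 ≤ x → x ≤ e → |y| ≤ 1 → |x * y| ≤ e := by
    intro x y hx hx' hy
    rw [abs_mul, abs_of_nonneg hx]
    calc x * |y| ≤ e * 1 := mul_le_mul hx' hy (abs_nonneg y) he0
      _ = e := mul_one e
  refine dir_scaled (by simp) hτ hτ' hτe ?_ ?_ ?_
  · intro x hx
    simp only [List.mem_cons, List.not_mem_nil, or_false] at hx
    rcases hx with rfl | rfl | rfl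
    · exact lt_of_lt_of_le one_pos hla.1
    · exact lt_of_lt_of_le (by norm_num) hlb.1
    · exact hlr.1
  · intro x hx
    simp only [List.mem_cons, List.not_mem_nil, or_false] at hx
    rcases hx with rfl | rfl | rfl
    · simp only [abs_le]; constructor <;> linarith only [ca.1, ca.2]
    · simp only [abs_le]; constructor <;> linarith only [cb.1, cb.2]
    · simp only [abs_le]; constructor <;> linarith only [cr.1, cr.2]
  · simp only [List.map_cons, List.map_nil, List.sum_cons, List.sum_nil, add_zero]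
    have k1 := abs_le.1 (hprod (la - 1) (a - s₀) (by linarith only [hla.1])
      (by linarith only [hla.2])
      (by rw [abs_le]; constructor <;> linarith only [ca.1, ca.2, cs.1, cs.2]))
    have k2 := abs_le.1 (hprod (lb - 1 / 4) (b - s₀) (by linarith only [hlb.1])
      (by linarith only [hlb.2, he0])
      (by rw [abs_le]; constructor <;> linarith only [cb.1, cb.2, cs.1, cs.2]))
    have k3 := abs_le.1 (hprod lr (r - s₀) hlr.1.le hlr.2
      (by rw [abs_le]; constructor <;> linarith only [cr.1, cr.2, cs.1, cs.2]))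
    have k5 : la * (a - s₀) + (lb * (b - s₀) + lr * (r - s₀)) =
        (la - 1) * (a - s₀) + (lb - 1 / 4) * (b - s₀) + lr * (r - s₀) +
          (a - (13 / 128 - 10 * δ + 8 / 9 * q)) +
          (b - (-(1 / 4) + 35 * δ + 8 / 9 * q)) / 4 := by
      rw [hs₀]
      ring
    rw [k5]
    have k6 : 26 * e * (5 / 4) ≤ 26 * e * (la + (lb + lr)) :=
      mul_le_mul_of_nonneg_left (by linarith only [hla.1, hlb.1, hlr.1])
        (by linarith only [he0])
    obtain ⟨h1, h2⟩ := abs_le.1 ha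
    obtain ⟨h3, h4⟩ := abs_le.1 hb
    rw [abs_le]
    constructor
    · linarith only [k1.1, k2.1, k3.1, k6, h1, h3, he0]
    · linarith only [k1.2, k2.2, k3.2, k6, h2, h4, he0]

/-- the first flip, with coarse bounds -/
lemma est_flip1 {N : ℕ} {τ e lz lp la lb lr lu : ℝ} {rest : List Edge}
    (hE : EState N τ e lz lp la lb lr lu rest) {q z p a b r s : ℝ}
    (hs : dir ([(la, a), (lb, b), (lr, r), (lu, q)].map fun x => (x.1, τ * x.2)) / τ = s)
    (cs : 1 / 8 ≤ s ∧ s ≤ 3 / 16) (cz : -(1 / 16) ≤ z ∧ z ≤ 0)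
    (cp : 1 / 1000 ≤ p ∧ p ≤ 1 / 64) (ca : 1 / 5 ≤ a ∧ a ≤ 1 / 4) (cb : 1 / 4 ≤ b ∧ b ≤ 1)
    (cr : 1 / 4 ≤ r ∧ r ≤ 1) (cq : -(1 / 100) ≤ q ∧ q ≤ 1 / 100) :
    Ok N (ech τ lz lp la lb lr lu rest z p a b r q) ∧
    CStep (ech τ lz lp la lb lr lu rest z p a b r q)
      (ech τ lz lp la lb lr lu rest z p (2 * s - a) (2 * s - b) (2 * s - r) (2 * s - q)) ∧
    ∀ c, CStep (ech τ lz lp la lb lr lu rest z p a b r q) c →
      c = ech τ lz lp la lb lr lu rest z p (2 * s - a) (2 * s - b) (2 * s - r) (2 * s - q) := by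
  have hτ := hE.hτ
  have hτ' := hE.hτ'
  have hτlt : ∀ x y : ℝ, x < y → τ * x < τ * y := fun x y h => mul_lt_mul_of_pos_left h hτ
  have hτ3 : ∀ x y : ℝ, x ≤ 1 → -1 ≤ y → τ * x < τ * y + 3 := by
    intro x y hx hy
    have h1 : τ * x ≤ τ * 1 := mul_le_mul_of_nonneg_left hx hτ.le
    have h2 : τ * (-1) ≤ τ * y := mul_le_mul_of_nonneg_left hy hτ.le
    linarith only [h1, h2, hτ']
  have hOk₀ : Ok N (ech τ lz lp la lb lr lu rest z p a b r q) := by
    refine ech_ok_of_abs hE ?_ ?_ ?_ ?_ ?_ ?_ <;> rw [abs_le]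
    · constructor <;> linarith only [cz.1, cz.2]
    · constructor <;> linarith only [cp.1, cp.2]
    · constructor <;> linarith only [ca.1, ca.2]
    · constructor <;> linarith only [cb.1, cb.2]
    · constructor <;> linarith only [cr.1, cr.2]
    · constructor <;> linarith only [cq.1, cq.2]
  obtain ⟨B₁, hB₁⟩ : ∃ B₁ : List Edge, B₁ =
    [(la, a), (lb, b), (lr, r), (lu, q)].map fun x => (x.1, τ * x.2) := ⟨_, rfl⟩
  rw [← hB₁] at hs
  have hdir₁ : dir B₁ = τ * s := by rw [← hs]; field_simp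
  obtain ⟨X, hX⟩ : ∃ X : List Edge, X = [(lz, τ * z), (lp, τ * p)] := ⟨_, rfl⟩
  have hXs : Sorted X := by
    simp only [hX, Sorted, List.pairwise_cons, List.mem_cons, List.not_mem_nil, or_false,
      forall_eq, IsEmpty.forall_iff, implies_true, List.Pairwise.nil, and_true]
    exact hτlt _ _ (by linarith only [cz.2, cp.1])
  have e₀ : ech τ lz lp la lb lr lu rest z p a b r q = X ++ B₁ ++ rest := by
    simp [ech, hX, hB₁]
  have e₁ : ech τ lz lp la lb lr lu rest z p (2 * s - a) (2 * s - b) (2 * s - r) (2 * s - q) =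
      X ++ flipBlock B₁ ++ rest := by
    rw [hB₁, flipBlock_scaled hτ, ← hB₁, hs]
    simp [ech, hX]
  have hsm₀ : Small (X ++ B₁ ++ rest) := by
    rw [← e₀]
    exact fun x hx => ⟨(hOk₀.2.2 x hx).1, (hOk₀.2.2 x hx).2.2⟩
  have g₁ : GoodBlock B₁ := by
    have e2 : B₁ = [(la, τ * a), (lb, τ * b), (lr, τ * r)] ++ [(lu, τ * q)] := by
      simp [hB₁]
    rw [e2]
    refine goodBlock_of_split ?_ (by simp) ?_ ?_
    · rw [← e2]
      exact fun x hx => hsm₀ x (by simp [hx])
    · rw [← e2, hdir₁]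
      intro x hx
      simp only [List.mem_cons, List.not_mem_nil, or_false] at hx
      rcases hx with rfl | rfl | rfl
      · exact ⟨hτlt _ _ (by linarith only [cs.2, ca.1]),
          hτ3 _ _ (by linarith only [ca.2]) (by linarith only [cs.1])⟩
      · exact ⟨hτlt _ _ (by linarith only [cs.2, cb.1]),
          hτ3 _ _ (by linarith only [cb.2]) (by linarith only [cs.1])⟩
      · exact ⟨hτlt _ _ (by linarith only [cs.2, cr.1]),
          hτ3 _ _ (by linarith only [cr.2]) (by linarith only [cs.1])⟩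
    · rw [← e2, hdir₁]
      intro x hx
      simp only [List.mem_cons, List.not_mem_nil, or_false] at hx
      rw [hx]
      exact ⟨hτlt _ _ (by linarith only [cs.1, cq.2]),
        hτ3 _ _ (by linarith only [cs.2]) (by linarith only [cq.1])⟩
  have step₁ := cstep_single hsm₀ hXs hE.hrest g₁ (by simp [hB₁])
    (by
      rw [hdir₁]
      intro x hx
      simp only [hX, List.mem_cons, List.not_mem_nil, or_false] at hx
      rcases hx with rfl | rfl
      · exact hτlt _ _ (by linarith only [cz.2, cs.1])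
      · exact hτlt _ _ (by linarith only [cp.2, cs.1]))
    (by
      rw [hdir₁]
      intro x hx
      exact lt_of_lt_of_le (hτlt _ _ (by linarith only [cs.2])) (hE.hrest' x hx).2.2.1)
  rw [← e₀, ← e₁] at step₁
  exact ⟨hOk₀, step₁.1, step₁.2⟩

/-- the second flip, with coarse bounds -/
lemma est_flip2 {N : ℕ} {τ e lz lp la lb lr lu : ℝ} {rest : List Edge}
    (hE : EState N τ e lz lp la lb lr lu rest) {z p a b r u s : ℝ}
    (hs : dir ([(la, a), (lb, b), (lr, r)].map fun x => (x.1, τ * x.2)) / τ = s)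
    (cs : 1 / 40 ≤ s ∧ s ≤ 1 / 25) (cz : -(1 / 16) ≤ z ∧ z ≤ 0)
    (cp : 1 / 1000 ≤ p ∧ p ≤ 1 / 64) (ca : 1 / 16 ≤ a ∧ a ≤ 1 / 8)
    (cb : -(1 / 3) ≤ b ∧ b ≤ 0) (cr : -(1 / 3) ≤ r ∧ r ≤ 0) (cu : 1 / 4 ≤ u ∧ u ≤ 1 / 3) :
    Ok N (ech τ lz lp la lb lr lu rest z p a b r u) ∧
    CStep (ech τ lz lp la lb lr lu rest z p a b r u)
      (ech τ lz lp la lb lr lu rest z p (2 * s - a) (2 * s - b) (2 * s - r) u) ∧
    ∀ c, CStep (ech τ lz lp la lb lr lu rest z p a b r u) c →
      c = ech τ lz lp la lb lr lu rest z p (2 * s - a) (2 * s - b) (2 * s - r) u := by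
  have hτ := hE.hτ
  have hτ' := hE.hτ'
  have hτlt : ∀ x y : ℝ, x < y → τ * x < τ * y := fun x y h => mul_lt_mul_of_pos_left h hτ
  have hτ3 : ∀ x y : ℝ, x ≤ 1 → -1 ≤ y → τ * x < τ * y + 3 := by
    intro x y hx hy
    have h1 : τ * x ≤ τ * 1 := mul_le_mul_of_nonneg_left hx hτ.le
    have h2 : τ * (-1) ≤ τ * y := mul_le_mul_of_nonneg_left hy hτ.le
    linarith only [h1, h2, hτ']
  have hOk₀ : Ok N (ech τ lz lp la lb lr lu rest z p a b r u) := by
    refine ech_ok_of_abs hE ?_ ?_ ?_ ?_ ?_ ?_ <;> rw [abs_le]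
    · constructor <;> linarith only [cz.1, cz.2]
    · constructor <;> linarith only [cp.1, cp.2]
    · constructor <;> linarith only [ca.1, ca.2]
    · constructor <;> linarith only [cb.1, cb.2]
    · constructor <;> linarith only [cr.1, cr.2]
    · constructor <;> linarith only [cu.1, cu.2]
  obtain ⟨B₂, hB₂⟩ : ∃ B₂ : List Edge, B₂ =
    [(la, a), (lb, b), (lr, r)].map fun x => (x.1, τ * x.2) := ⟨_, rfl⟩
  rw [← hB₂] at hs
  have hdir₂ : dir B₂ = τ * s := by rw [← hs]; field_simp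
  obtain ⟨X, hX⟩ : ∃ X : List Edge, X = [(lz, τ * z), (lp, τ * p)] := ⟨_, rfl⟩
  have hXs : Sorted X := by
    simp only [hX, Sorted, List.pairwise_cons, List.mem_cons, List.not_mem_nil, or_false,
      forall_eq, IsEmpty.forall_iff, implies_true, List.Pairwise.nil, and_true]
    exact hτlt _ _ (by linarith only [cz.2, cp.1])
  have e₀ : ech τ lz lp la lb lr lu rest z p a b r u = X ++ B₂ ++ ((lu, τ * u) :: rest) := by
    simp [ech, hX, hB₂]
  have e₁ : ech τ lz lp la lb lr lu rest z p (2 * s - a) (2 * s - b) (2 * s - r) u =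
      X ++ flipBlock B₂ ++ ((lu, τ * u) :: rest) := by
    rw [hB₂, flipBlock_scaled hτ, ← hB₂, hs]
    simp [ech, hX]
  have hsm₀ : Small (X ++ B₂ ++ ((lu, τ * u) :: rest)) := by
    rw [← e₀]
    exact fun x hx => ⟨(hOk₀.2.2 x hx).1, (hOk₀.2.2 x hx).2.2⟩
  have g₂ : GoodBlock B₂ := by
    have e2 : B₂ = [(la, τ * a)] ++ [(lb, τ * b), (lr, τ * r)] := by
      simp [hB₂]
    rw [e2]
    refine goodBlock_of_split ?_ (by simp) ?_ ?_
    · rw [← e2]
      exact fun x hx => hsm₀ x (by simp [hx])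
    · rw [← e2, hdir₂]
      intro x hx
      simp only [List.mem_cons, List.not_mem_nil, or_false] at hx
      rw [hx]
      exact ⟨hτlt _ _ (by linarith only [cs.2, ca.1]),
        hτ3 _ _ (by linarith only [ca.2]) (by linarith only [cs.1])⟩
    · rw [← e2, hdir₂]
      intro x hx
      simp only [List.mem_cons, List.not_mem_nil, or_false] at hx
      rcases hx with rfl | rfl
      · exact ⟨hτlt _ _ (by linarith only [cs.1, cb.2]),
          hτ3 _ _ (by linarith only [cs.2]) (by linarith only [cb.1])⟩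
      · exact ⟨hτlt _ _ (by linarith only [cs.1, cr.2]),
          hτ3 _ _ (by linarith only [cs.2]) (by linarith only [cr.1])⟩
  have step₂ := cstep_single hsm₀ hXs
    (by
      rw [Sorted, List.pairwise_cons]
      refine ⟨?_, hE.hrest⟩
      intro x hx
      exact lt_of_lt_of_le (hτlt _ _ (by linarith only [cu.2])) (hE.hrest' x hx).2.2.1)
    g₂ (by simp [hB₂])
    (by
      rw [hdir₂]
      intro x hx
      simp only [hX, List.mem_cons, List.not_mem_nil, or_false] at hx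
      rcases hx with rfl | rfl
      · exact hτlt _ _ (by linarith only [cz.2, cs.1])
      · exact hτlt _ _ (by linarith only [cp.2, cs.1]))
    (by
      rw [hdir₂]
      intro x hx
      simp only [List.mem_cons] at hx
      rcases hx with rfl | hx
      · exact hτlt _ _ (by linarith only [cs.2, cu.1])
      · exact lt_of_lt_of_le (hτlt _ _ (by linarith only [cs.2])) (hE.hrest' x hx).2.2.1)
  rw [← e₀, ← e₁] at step₂
  exact ⟨hOk₀, step₂.1, step₂.2⟩

/-- the two forced flips `[A, B, r, U]` and `[A, B, r]` -/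
theorem estart {N : ℕ} {τ e lz lp la lb lr lu : ℝ} {rest : List Edge}
    (hE : EState N τ e lz lp la lb lr lu rest) {δ q z p a b r : ℝ} (hδ : 0 ≤ δ)
    (hδ' : δ ≤ 1 / 2 ^ 20) (hq : |q| ≤ 4 * δ) (hz : |z - (-(5 / 128) - 16 * δ)| ≤ e)
    (hp : |p - 1 / 128| ≤ e) (ha : |a - 27 / 128| ≤ e) (hb : |b - (9 / 16 - 45 * δ)| ≤ e)
    (hr : |r - 315 / 512| ≤ e) :
    ∃ c₁ a₂ b₂ r₂ u₂,
      Ok N (ech τ lz lp la lb lr lu rest z p a b r q) ∧ Ok N c₁ ∧
      CStep (ech τ lz lp la lb lr lu rest z p a b r q) c₁ ∧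
      (∀ c, CStep (ech τ lz lp la lb lr lu rest z p a b r q) c → c = c₁) ∧
      CStep c₁ (ech τ lz lp la lb lr lu rest z p a₂ b₂ r₂ u₂) ∧
      (∀ c, CStep c₁ c → c = ech τ lz lp la lb lr lu rest z p a₂ b₂ r₂ u₂) ∧
      |a₂ - (-(5 / 128) + 8 * δ + 8 / 9 * q)| ≤ 1000 * e ∧
      |b₂ - (5 / 16 - 37 * δ + 8 / 9 * q)| ≤ 1000 * e ∧
      |u₂ - (5 / 16 - 10 * δ - 1 / 9 * q)| ≤ 1000 * e ∧
      |r₂ - (187 / 512 + 8 * δ + 8 / 9 * q)| ≤ 1000 * e := by
  have hτe := hE.hτe
  have he : e ≤ 1 / 1000000 := hE.he.trans (by norm_num)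
  have he0 : 0 ≤ e := (sq_nonneg τ).trans hτe
  have hδ1 : δ ≤ 1 / 1000000 := hδ'.trans (by norm_num)
  have cq : -(1 / 1000) ≤ q ∧ q ≤ 1 / 1000 := by
    obtain ⟨h1, h2⟩ := abs_le.1 hq
    constructor <;> linarith only [h1, h2, hδ1]
  obtain ⟨s, hs⟩ : ∃ s, dir ([(la, a), (lb, b), (lr, r), (lu, q)].map
    fun x => (x.1, τ * x.2)) / τ = s := ⟨_, rfl⟩
  have h1 := est_avg1 hE.hτ hE.hτ' hτe he hδ hδ1 hE.hla hE.hlb hE.hlr hE.hlu hq ha hb hr
  rw [hs] at h1
  obtain ⟨h1a, h1b⟩ := abs_le.1 h1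
  obtain ⟨ha1, ha2⟩ := abs_le.1 ha
  obtain ⟨hb1, hb2⟩ := abs_le.1 hb
  obtain ⟨hr1, hr2⟩ := abs_le.1 hr
  obtain ⟨hz1, hz2⟩ := abs_le.1 hz
  obtain ⟨hp1, hp2⟩ := abs_le.1 hp
  have cz : -(1 / 16) ≤ z ∧ z ≤ 0 := by
    constructor
    · linarith only [hz1, he, hδ, hδ1]
    · linarith only [hz2, he, hδ, hδ1]
  have cp : 1 / 1000 ≤ p ∧ p ≤ 1 / 64 := by
    constructor
    · linarith only [hp1, he]
    · linarith only [hp2, he]
  have f1 := est_flip1 hE hs
    (by
      constructor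
      · linarith only [h1a, he, hδ, hδ1, cq.1]
      · linarith only [h1b, he, hδ, hδ1, cq.2])
    cz cp
    (by
      constructor
      · linarith only [ha1, he]
      · linarith only [ha2, he])
    (by
      constructor
      · linarith only [hb1, he, hδ1]
      · linarith only [hb2, he, hδ])
    (by
      constructor
      · linarith only [hr1, he]
      · linarith only [hr2, he])
    (by
      constructor
      · linarith only [cq.1]
      · linarith only [cq.2])
  obtain ⟨a₁, ea⟩ : ∃ a₁, a₁ = 2 * s - a := ⟨_, rfl⟩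
  obtain ⟨b₁, eb⟩ : ∃ b₁, b₁ = 2 * s - b := ⟨_, rfl⟩
  obtain ⟨r₁, er⟩ : ∃ r₁, r₁ = 2 * s - r := ⟨_, rfl⟩
  obtain ⟨u₁, eu⟩ : ∃ u₁, u₁ = 2 * s - q := ⟨_, rfl⟩
  rw [← ea, ← eb, ← er, ← eu] at f1
  have ba : |a₁ - (13 / 128 - 10 * δ + 8 / 9 * q)| ≤ 23 * e := by
    rw [abs_le]
    constructor
    · linarith only [ea, ha2, h1a]
    · linarith only [ea, ha1, h1b]
  have bb : |b₁ - (-(1 / 4) + 35 * δ + 8 / 9 * q)| ≤ 23 * e := by
    rw [abs_le]
    constructor
    · linarith only [eb, hb2, h1a]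
    · linarith only [eb, hb1, h1b]
  have br : |r₁ - (-(155 / 512) - 10 * δ + 8 / 9 * q)| ≤ 23 * e := by
    rw [abs_le]
    constructor
    · linarith only [er, hr2, h1a]
    · linarith only [er, hr1, h1b]
  have bu : |u₁ - (5 / 16 - 10 * δ - 1 / 9 * q)| ≤ 22 * e := by
    rw [abs_le]
    constructor
    · linarith only [eu, h1a]
    · linarith only [eu, h1b]
  have h2 := est_avg2 hE.hτ hE.hτ' hτe he hδ hδ1 hE.hla hE.hlb hE.hlr hq ba bb br
  obtain ⟨s₂, hs₂⟩ : ∃ s, dir ([(la, a₁), (lb, b₁), (lr, r₁)].map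
    fun x => (x.1, τ * x.2)) / τ = s := ⟨_, rfl⟩
  rw [hs₂] at h2
  obtain ⟨h2a, h2b⟩ := abs_le.1 h2
  obtain ⟨ba1, ba2⟩ := abs_le.1 ba
  obtain ⟨bb1, bb2⟩ := abs_le.1 bb
  obtain ⟨br1, br2⟩ := abs_le.1 br
  obtain ⟨bu1, bu2⟩ := abs_le.1 bu
  have f2 := est_flip2 hE hs₂ (u := u₁)
    (by
      constructor
      · linarith only [h2a, he, hδ, hδ1, cq.1]
      · linarith only [h2b, he, hδ, hδ1, cq.2])
    cz cp
    (by
      constructor
      · linarith only [ba1, he, hδ, hδ1, cq.1]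
      · linarith only [ba2, he, hδ, hδ1, cq.2])
    (by
      constructor
      · linarith only [bb1, he, hδ, hδ1, cq.1]
      · linarith only [bb2, he, hδ, hδ1, cq.2])
    (by
      constructor
      · linarith only [br1, he, hδ, hδ1, cq.1]
      · linarith only [br2, he, hδ, hδ1, cq.2])
    (by
      constructor
      · linarith only [bu1, he, hδ, hδ1, cq.1, cq.2]
      · linarith only [bu2, he, hδ, hδ1, cq.1, cq.2])
  refine ⟨_, 2 * s₂ - a₁, 2 * s₂ - b₁, 2 * s₂ - r₁, u₁, f1.1, f2.1, f1.2.1, f1.2.2,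
    f2.2.1, f2.2.2, ?_, ?_, ?_, ?_⟩ <;> rw [abs_le]
  · constructor
    · linarith only [h2a, ba2, he0]
    · linarith only [h2b, ba1, he0]
  · constructor
    · linarith only [h2a, bb2, he0]
    · linarith only [h2b, bb1, he0]
  · constructor
    · linarith only [bu1, he0]
    · linarith only [bu2, he0]
  · constructor
    · linarith only [h2a, br2, he0]
    · linarith only [h2b, br1, he0]

end Sh
end Pool.Agent.Helper20.Flip
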